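import Pool.Agent.R836.RD.Main2

set_option autoImplicit false

/-!
# Parity patterns of the 21-regular partitions on progressions (MP_315043_nt)

Let `b21 n` be the number of 21-regular partitions of `n`. For every `M ≥ 1` there is a constant `C`
such that every linear combination `∑_{i < K} c_i b21 (n + i)` modulo 2, `n ≡ ρ (mod M)`, in which some
`c_i ≠ 0` belongs to a class `ρ + i` modulo `M` that contains a number `≡ 3 (mod 4)`, takes both values
in every interval `[A, C (A + K)]`. In particular `b21 (4 n + 3)` is not constant modulo 2 on any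
progression.

Method: `Results/MP_a23355_nt/PatternsOnProgressions`, with `m₀ = 21` and `2 ^ 0` in place of `2 ^ j`. The
exponent of the term of smallest order is `- 20 M ^ 2 / 21`, and the class `3` modulo 4 of `n` is the
one for which `24 n + 20` is in the class of such a number modulo `2 ^ κ`, for suitable `M`.
-/

namespace Pool.Agent.Results.MP_315043_nt.PatternsClassThree

open PowerSeries Pool.Agent.R836.RD

/-- the number of 21-regular partitions of `n` -/
def b21 (n : ℕ) : ℕ :=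
  ((Finset.univ : Finset (Nat.Partition n)).filter fun p => ∀ i ∈ p.parts, ¬ 21 ∣ i).card

private theorem hb (n : ℕ) : coeff n (Pg 0 21 (by norm_num)) = (b21 n : ZMod 2) := by
  have h := partg 0 21 (by norm_num) n
  rw [← h]
  simp only [pow_zero, one_mul]
  rfl

theorem result (M : ℕ) (hM : 0 < M) : ∃ C : ℕ, ∀ (K : ℕ) (c : ℕ → ZMod 2) (ρ : ℕ),
    (∃ i < K, c i ≠ 0 ∧ ∃ N, N ≡ ρ + i [MOD M] ∧ N % 4 = 3) →
    ∀ (κ : ZMod 2) (A : ℕ), ∃ n, A ≤ n ∧ n ≤ C * (A + K) ∧ n ≡ ρ [MOD M] ∧
      ∑ i ∈ Finset.range K, c i * (b21 (n + i) : ZMod 2) = κ := by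
  have hsec := sec_Pg 0 21 (by norm_num)
  obtain ⟨C, hC⟩ := pat1 (Pg 0 21 (by norm_num)) _ hsec (by norm_num) M hM
  refine ⟨C, fun K c ρ h' κ A => ?_⟩
  obtain ⟨i, hi, hci, N, hN, hN4⟩ := h'
  obtain ⟨n, hn, hn0⟩ := full_21 M N hM hN4
  obtain ⟨n', h1', h2, h3, h4⟩ := hC K c ρ ⟨i, hi, hci, n, hn.trans hN, hn0⟩ κ A
  refine ⟨n', h1', h2, h3, ?_⟩
  rw [← h4]
  refine Finset.sum_congr rfl fun i _ => ?_
  rw [hb]

end Pool.Agent.Results.MP_315043_nt.PatternsClassThree
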